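import Pool.Agent.Lib.CWS.G

/-!
# Cancellation for strong CW-regular subdivisions is desuspension of spheres and balls
-/

set_option autoImplicit false

namespace Pool.Agent.Results.MP_50bc0c_co.DesuspensionEquivalence

open Pool.Agent.CWS

/-- The question, also in bounded dimension, is equivalent to the desuspension of spheres and balls
among finite regular CW complexes. -/
theorem result : (Cancellation ↔ ∀ D, CancellationUpTo D) ∧
    ∀ D, (CancellationUpTo D ↔ SphereDesuspension D ∧ BallDesuspension D) :=
  main

end Pool.Agent.Results.MP_50bc0c_co.DesuspensionEquivalence
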